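import Mathlib
import Pool.Agent.MP_36f78e_lc.H24.Cl.Defs

/-!
Alternating classical proofs with a quantum verifier, relative to a classical oracle.
-/

namespace Pool.Agent.MP_36f78e_lc.H75

open Pool.Agent.MP_36f78e_lc.H24.Cl Matrix

/-- Alternating quantifiers.  The two players rewrite, in turn, the bits of the string in the
listed blocks; the Boolean argument is `true` when the next quantifier is existential.  At the end
the string must satisfy `P`. -/
def Wins {p : ℕ} (P : (Fin p → Bool) → Prop) :
    List (Finset (Fin p)) → Bool → (Fin p → Bool) → Prop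
  | [], _, y => P y
  | B :: Bs, true, y => ∃ y' : Fin p → Bool, (∀ i ∉ B, y' i = y i) ∧ Wins P Bs false y'
  | B :: Bs, false, y => ∀ y' : Fin p → Bool, (∀ i ∉ B, y' i = y i) → Wins P Bs true y'

/-- A verifier whose witness wires receive classical proofs, one for each block of wires. -/
structure Game where
  V : Verifier
  blocks : List (Finset (Fin V.p))

/-- There is a first proof such that for every second proof, and so on, the verifier accepts with
probability at least two thirds. -/
def Game.Accepts (G : Game) (A : List Bool → Bool) : Prop :=
  Wins (fun y => 2 / 3 ≤ G.V.accProb A (Pi.single y 1)) G.blocks true fun _ => false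

/-- For every first proof there is a second proof, and so on, such that the verifier accepts with
probability at most one third. -/
def Game.Rejects (G : Game) (A : List Bool → Bool) : Prop :=
  Wins (fun y => G.V.accProb A (Pi.single y 1) ≤ 1 / 3) G.blocks false fun _ => false

/-- The binary logarithm of the number of proof bits and oracle calls, plus the number of
proofs. -/
def Game.size (G : Game) : ℕ := Nat.log 2 (G.V.p + G.V.queries) + G.blocks.length

/-- A Hadamard gate on each of the `n` witness qubits, the identity on the four ancillas. -/
noncomputable def had (n : ℕ) : Matrix (Fin n ⊕ Fin 4 → Bool) (Fin n ⊕ Fin 4 → Bool) ℂ :=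
  fun x y => if ∀ j, x (Sum.inr j) = y (Sum.inr j) then
    ∏ i, (if x (Sum.inl i) = true ∧ y (Sum.inl i) = true then -1 else 1) / (√2 : ℝ) else 0

/-- The Pauli gate `Z` on the last ancilla. -/
def zed (n : ℕ) : Matrix (Fin n ⊕ Fin 4 → Bool) (Fin n ⊕ Fin 4 → Bool) ℂ :=
  Matrix.diagonal fun x => if x (Sum.inr 3) = true then -1 else 1

/-- The oracle call that adds the value of the oracle on the string `u v y` to the ancilla `t`,
where `u, v` are ancillas and `y` is the witness register. -/
def call (n : ℕ) (u v t : Fin 4) : Gate (Fin n ⊕ Fin 4) :=
  Sum.inr (Sum.inr u :: Sum.inr v :: List.ofFn Sum.inl, Sum.inr t)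

/-- The five-query test.  With witness `y` and ancillas `a, b, c, d` numbered `0, 1, 2, 3`:
Hadamards, add `A (c c y)` to `a`, Hadamards, add `A (c a y)` to `b`, add `A (a c y)` to `d`,
apply `Z` to `d`, add `A (a c y)` to `d`, Hadamards, add `A (a a y)` to `c`, accept when
`a = b = c = 1`. -/
noncomputable def check (n : ℕ) : Verifier where
  p := n
  q := 4
  gates := [Sum.inl (had n), call n 2 2 0, Sum.inl (had n), call n 2 0 1, call n 0 2 3,
    Sum.inl (zed n), call n 0 2 3, Sum.inl (had n), call n 0 0 2]
  acc := Finset.univ.filter fun z =>
    z (Sum.inr 0) = true ∧ z (Sum.inr 1) = true ∧ z (Sum.inr 2) = true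

end Pool.Agent.MP_36f78e_lc.H75
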