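import Mathlib
import Pool.Agent.MP_36f78e_lc.H24.Cl.Test
import Pool.Agent.MP_36f78e_lc.H75.Defs

/-!
Shared definitions and the statements of the parts.
-/

set_option linter.unusedSectionVars false

namespace Pool.Agent.MP_36f78e_lc.H75

open Pool.Agent.MP_36f78e_lc.H24.Cl Finset
open scoped BigOperators

/-- Restrictions. -/
abbrev Restr (ι : Type) : Type := ι → Option Bool

section

variable {ι : Type} [Fintype ι] [DecidableEq ι]

/-- The restriction `β`, completed by `ρ` where `β` is free. -/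
def ov (β ρ : Restr ι) : Restr ι := fun i => (β i).or (ρ i)

/-- The point of the subcube of `β` that agrees with `x` on the free coordinates. -/
def fill (β : Restr ι) (x : ι → Bool) : ι → Bool := fun i => (β i).getD (x i)

/-- On the subcube of the restriction, `f` has a decision tree of depth less than the number. -/
inductive DT (f : (ι → Bool) → Bool) : Restr ι → ℕ → Prop
  | leaf (β : Restr ι) (s : ℕ) (c : Bool) (h : ∀ x, f (fill β x) = c) : DT f β (s + 1)
  | node (β : Restr ι) (s : ℕ) (i : ι) (hi : β i = none)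
      (h : ∀ b, DT f (Function.update β i (some b)) s) : DT f β (s + 1)

/-- Circuits of depth `k` and fan-in `s` over decision trees of depth less than `t`. -/
def AC (s t : ℕ) : ℕ → ((ι → Bool) → Bool) → Prop
  | 0, f => DT f (fun _ => none) t
  | k + 1, f => ∃ (F : Finset ((ι → Bool) → Bool)) (c : Bool), F.card ≤ s ∧
      (∀ g ∈ F, AC s t k g) ∧ ∀ x, (f x = c ↔ ∃ g ∈ F, g x = c)

/-- The weight of a random restriction. -/
noncomputable def wt (p : ℝ) (ρ : Restr ι) : ℝ := ∏ i, if ρ i = none then p else (1 - p) / 2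

/-- The expectation after several rounds of random restrictions. -/
noncomputable def Ex (p : ℝ) : ℕ → (Restr ι → ℝ) → Restr ι → ℝ
  | 0, G, β => G β
  | k + 1, G, β => Ex p k (fun γ => ∑ ρ, wt p ρ * G (ov γ ρ)) β

/-- The sign of a bit. -/
def sg (b : Bool) : ℝ := if b = true then -1 else 1

/-- The expectation of `F` under the product distribution in which the sign of the bit `i` has
mean `μ i`. -/
noncomputable def ext (F : (ι → Bool) → ℝ) (μ : ι → ℝ) : ℝ :=
  ∑ x : ι → Bool, (∏ i, (1 + μ i * sg (x i)) / 2) * F x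

/-- The indicator of a Boolean function. -/
def ind (f : (ι → Bool) → Bool) (x : ι → Bool) : ℝ := if f x = true then 1 else 0

/-- The restriction that copies `x` on `O`. -/
def full (O : Finset ι) (x : ι → Bool) : Restr ι := fun i => if i ∈ O then some (x i) else none

end

/-- The real character. -/
def rs {n : ℕ} (e z : Fin n → Bool) : ℝ := ∏ i, if e i = true ∧ z i = true then -1 else 1

/-- The inner product modulo two. -/
noncomputable def dot {n : ℕ} (e z : Fin n → Bool) : Bool := decide (rs e z < 0)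

/-- The strings of length `n` that the oracle accepts after the letters `b, c`. -/
def pt (A : List Bool → Bool) (n : ℕ) (b c : Bool) : Finset (Fin n → Bool) :=
  univ.filter fun z => A (b :: c :: List.ofFn z) = true

/-- The sign that the oracle attaches to a string. -/
def sig (A : List Bool → Bool) {n : ℕ} (z : Fin n → Bool) : ℝ := sg (A (true :: false :: List.ofFn z))

open Classical in
/-- The switching lemma for circuits. -/
def SwitchStmt : Prop :=
  ∀ (ι : Type) [Fintype ι] [DecidableEq ι] (s t k : ℕ) (f : (ι → Bool) → Bool), 1 ≤ t →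
    AC s t k f → ∀ β : Restr ι,
      Ex (1 / (20 * t)) k (fun γ => if DT f γ t then 0 else 1) β ≤ ((s : ℝ) + 1) ^ k / 2 ^ t

/-- One small step does not change the expectation of a circuit. -/
def StepStmt : Prop :=
  ∀ (ι : Type) [Fintype ι] [DecidableEq ι] (J : Type) [Fintype J] [Nonempty J]
    (X : J → ι → Bool) (s t k : ℕ) (f : (ι → Bool) → Bool) (μ d : ι → ℝ) (δ ε η : ℝ),
    1 ≤ t → AC s t k f → (∀ i, |μ i| ≤ 99 / 100) → (∀ i, |d i| ≤ δ) → 0 ≤ δ →
    100 * (20 * t) ^ k * δ ≤ ε → t * ε ≤ 1 / 2 → 0 ≤ η →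
    (∀ i j, i ≠ j → d i ≠ 0 → d j ≠ 0 → |𝔼 a, sg (X a i) * sg (X a j)| ≤ η) →
    |(𝔼 u : Bool × J, ext (ind f) fun i => μ i + d i * sg (xor u.1 (X u.2 i))) - ext (ind f) μ| ≤
      ((s : ℝ) + 1) ^ k / 2 ^ t + ((t * ε) ^ 2 * η + 2 * (t * ε) ^ 3)

/-- The walk fools circuits. -/
def WalkStmt : Prop :=
  ∀ (ι : Type) [Fintype ι] [DecidableEq ι] (J : Type) [Fintype J] [Nonempty J]
    (X : J → ι → Bool) (I : Finset ι) (s t k : ℕ) (f : (ι → Bool) → Bool) (δ ε η : ℝ),
    1 ≤ t → AC s t k f → 0 ≤ δ → 100 * (20 * t) ^ k * δ ≤ ε → t * ε ≤ 1 / 2 → 0 ≤ η →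
    (∀ i ∈ I, ∀ j ∈ I, i ≠ j → |𝔼 a, sg (X a i) * sg (X a j)| ≤ η) →
    ∀ (m : ℕ) (h : ι → (Fin m → Bool) → ℝ), (∀ i ξ, |h i ξ| ≤ 99 / 100) →
    (∀ i ∉ I, ∀ ξ, h i ξ = 0) →
    (∀ i ξ l, |h i ξ - h i (Function.update ξ l (!ξ l))| ≤ 2 * δ) →
    |(𝔼 ω : Fin m → Bool × J, ext (ind f) fun i => h i fun l => xor (ω l).1 (X (ω l).2 i)) -
        ext (ind f) fun i => 𝔼 ξ, h i ξ| ≤
      m * (((s : ℝ) + 1) ^ k / 2 ^ t + ((t * ε) ^ 2 * η + 2 * (t * ε) ^ 3))

/-- Small-bias families. -/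
def BiasStmt : Prop :=
  ∀ (n L : ℕ) (η : ℝ), 0 < η → η ≤ 1 → 4 * ((n : ℝ) + 1) ≤ η ^ 2 * L →
    ∃ a : Fin L → Fin n → Bool, ∀ z z' : Fin n → Bool, z ≠ z' →
      |𝔼 l, sg (dot (a l) z) * sg (dot (a l) z')| ≤ η

/-- A bounded function with small differences that is close to a polynomial of bounded degree. -/
def ClipStmt : Prop :=
  ∀ w : ℕ, 1 ≤ w → ∃ (h c : (Fin (10000 * w ^ 2) → Bool) → ℝ),
    (∀ ξ, |h ξ| ≤ 99 / 100) ∧ (𝔼 ξ, h ξ) = 0 ∧
    (∀ ξ l, |h ξ - h (Function.update ξ l (!ξ l))| ≤ 2 * (1 / w)) ∧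
    (∀ e, c e ≠ 0 → (univ.filter fun l => e l = true).card ≤ 1000000) ∧
    9 / 10 ≤ 𝔼 ξ, (2 * (h ξ * ∑ e, c e * rs e ξ) - (∑ e, c e * rs e ξ) ^ 2)

/-- The test is valid, sound when a matrix is small, and complete when the signs are correlated
with a function of small Fourier support. -/
def CheckStmt : Prop :=
  ∀ n : ℕ, (check n).Valid ∧ ∀ A : List Bool → Bool,
    (∀ w, IsState w → (check n).accProb A w ≤ 1) ∧
    (∀ w, IsState w → (check n).accProb A w ≤
      ∑ e ∈ pt A n true true, ∑ g ∈ pt A n false false,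
        ((∑ z ∈ pt A n false true, rs e z * sig A z * rs g z) / 2 ^ n) ^ 2) ∧
    ((pt A n false true).Nonempty →
      (∀ e ∉ pt A n false false, ∑ z ∈ pt A n false true, rs e z = 0) →
      ∀ W : (Fin n → Bool) → ℝ,
      (∀ e ∉ pt A n true true, ∑ z ∈ pt A n false true, rs e z * W z = 0) →
      (∑ z ∈ pt A n false true, (2 * (sig A z * W z) - W z ^ 2)) / (pt A n false true).card ≤
        (check n).accProb A (subsetState (pt A n false true)))

/-- For every classical proof the verdict of the verifier is given by a shallow decision tree. -/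
def Good {ι : Type} [Fintype ι] [DecidableEq ι] (V : Verifier)
    (orc : Restr ι → List Bool → Bool) (t : ℕ) (O : Finset ι) : Prop :=
  ∀ y : Fin V.p → Bool, ∃ g : (ι → Bool) → Bool, DT g (fun _ => none) t ∧ ∀ x,
    (2 / 3 ≤ V.accProb (orc (full O x)) (Pi.single y 1) → g x = true) ∧
    (V.accProb (orc (full O x)) (Pi.single y 1) ≤ 1 / 3 → g x = false)

open Classical in
/-- Quantum circuits on a sparse random oracle are simulated by decision trees. -/
def SparseStmt : Prop :=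
  ∀ (ι : Type) [Fintype ι] [DecidableEq ι] (V : Verifier), V.Valid →
    ∀ (orc : Restr ι → List Bool → Bool) (str : ι → Finset (List Bool)),
    (∀ i j, i ≠ j → Disjoint (str i) (str j)) →
    (∀ (β γ : Restr ι) (s : List Bool), (∀ i, s ∈ str i → β i = γ i) → orc β s = orc γ s) →
    ∀ (Ω : Type) [Fintype Ω] [Nonempty Ω] (O : Ω → Finset ι) (ρ : ℝ) (t : ℕ), 0 ≤ ρ →
    (∀ Y : Finset ι, Y.card ≤ t → 𝔼 ω, (if Y ⊆ O ω then 1 else 0 : ℝ) ≤ ρ ^ Y.card) →
    𝔼 ω, (if Good V orc t (O ω) then 0 else 1 : ℝ) ≤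
      2 ^ V.p * (5000 * ((V.queries : ℝ) + 1) ^ 2 * ρ) ^ t

end Pool.Agent.MP_36f78e_lc.H75
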