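import Mathlib
import Pool.Agent.MP_36f78e_lc.H75.Spec

/-!
The walk, and small-bias families.
-/

set_option linter.unusedSectionVars false

namespace Pool.Agent.MP_36f78e_lc.H75

open Finset
open scoped BigOperators

lemma expect_cons {K : Type} [Fintype K] {m : ℕ} (F : (Fin (m + 1) → K) → ℝ) :
    𝔼 ω, F ω = 𝔼 u : K, 𝔼 ω : Fin m → K, F (Fin.cons u ω) := by
  rw [← expect_product' univ univ (fun u (ω : Fin m → K) => F (Fin.cons u ω)), univ_product_univ]
  exact (Fintype.expect_equiv (Fin.consEquiv fun _ : Fin (m + 1) => K) _ _ fun _ => rfl).symm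

lemma abs_expect_le {K : Type} [Fintype K] [Nonempty K] {F : K → ℝ} {c : ℝ}
    (h : ∀ u, |F u| ≤ c) : |𝔼 u, F u| ≤ c :=
  abs_le.2 ⟨le_expect univ_nonempty fun u _ => (abs_le.1 (h u)).1,
    expect_le univ_nonempty fun u _ => (abs_le.1 (h u)).2⟩

lemma expect_bool (F : Bool → ℝ) : 𝔼 b, F b = (F false + F true) / 2 := by
  rw [expect_eq_sum_div_card]
  simp [add_comm]

theorem walk (hs : StepStmt) : WalkStmt := by
  intro ι _ _ J _ _ X I s t k f δ ε η ht hf hδ hε htε hη hX m
  induction m with
  | zero =>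
    intro h _ _ _
    have e : ∀ ω : Fin 0 → Bool × J, (fun i => h i fun l => xor (ω l).1 (X (ω l).2 i)) =
        fun i => 𝔼 ξ, h i ξ := fun ω => funext fun i => by
      rw [← Fintype.expect_const (ι := Fin 0 → Bool) (h i fun l => xor (ω l).1 (X (ω l).2 i))]
      exact expect_congr rfl fun _ _ => congrArg _ (Subsingleton.elim _ _)
    simp only [e]
    simp
  | succ m ih =>
    intro h hb hI hd
    obtain ⟨B, hB⟩ : ∃ B, B = ((s : ℝ) + 1) ^ k / 2 ^ t + ((t * ε) ^ 2 * η + 2 * (t * ε) ^ 3) :=
      ⟨_, rfl⟩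
    rw [← hB] at ih ⊢
    set μ : ι → ℝ := fun i => 𝔼 ξ, h i ξ with hμ
    set d : ι → ℝ := fun i => ((𝔼 ξ : Fin m → Bool, h i (Fin.cons false ξ)) -
      𝔼 ξ : Fin m → Bool, h i (Fin.cons true ξ)) / 2 with hdd
    have e1 : ∀ i b, (𝔼 ξ : Fin m → Bool, h i (Fin.cons b ξ)) = μ i + d i * sg b := by
      intro i b
      simp only [hμ, hdd]
      rw [expect_cons (h i), expect_bool]
      cases b <;> simp [sg] <;> ring
    have h1 := hs ι J X s t k f μ d δ ε η ht hf (fun i => abs_expect_le (hb i)) (fun i => ?_) hδ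
      hε htε hη (fun i j hij hi hj => hX i ?_ j ?_ hij)
    · rw [← hB] at h1
      rw [expect_cons]
      have h2 : ∀ u : Bool × J, |(𝔼 ω : Fin m → Bool × J, ext (ind f) fun i => h i fun l =>
          xor ((Fin.cons u ω : Fin (m + 1) → Bool × J) l).1
            (X ((Fin.cons u ω : Fin (m + 1) → Bool × J) l).2 i)) -
          ext (ind f) fun i => μ i + d i * sg (xor u.1 (X u.2 i))| ≤ m * B := by
        intro u
        have h3 := ih (fun i ξ => h i (Fin.cons (xor u.1 (X u.2 i)) ξ)) (fun i ξ => hb i _)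
          (fun i hi ξ => hI i hi _) (fun i ξ l => by
            have := hd i (Fin.cons (xor u.1 (X u.2 i)) ξ) l.succ
            rwa [Fin.cons_succ, ← Fin.cons_update] at this)
        simp only [e1] at h3
        refine le_trans (le_of_eq ?_) h3
        congr 2
        refine expect_congr rfl fun ω _ => ?_
        congr 1
        funext i
        congr 1
        funext l
        refine Fin.cases ?_ (fun l => ?_) l <;> simp
      have h3 := abs_expect_le h2
      rw [expect_sub_distrib] at h3
      have h4 := abs_add_le _ _ |>.trans (add_le_add h3 h1)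
      rw [sub_add_sub_cancel] at h4
      refine h4.trans (le_of_eq ?_)
      push_cast
      ring
    · simp only [hdd]
      rw [← expect_sub_distrib, abs_div, abs_two, div_le_iff₀ (by norm_num), mul_comm]
      refine abs_expect_le fun ξ => ?_
      have := hd i (Fin.cons false ξ) 0
      rwa [Fin.cons_zero, Fin.update_cons_zero] at this
    · by_contra hi'
      exact hi (by simp [hdd, hI i hi'])
    · by_contra hj'
      exact hj (by simp [hdd, hI j hj'])

variable {n : ℕ}

lemma rs_cases (e z : Fin n → Bool) : rs e z = 1 ∨ rs e z = -1 := by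
  unfold rs
  refine prod_induction _ (fun x : ℝ => x = 1 ∨ x = -1) ?_ (Or.inl rfl) fun i _ => ?_
  · rintro a b (rfl | rfl) (rfl | rfl) <;> simp
  · split_ifs <;> simp

lemma sg_dot (e z : Fin n → Bool) : sg (dot e z) = rs e z := by
  unfold sg dot
  rcases rs_cases e z with h | h <;> simp [h]

lemma rs_comm (e z : Fin n → Bool) : rs e z = rs z e :=
  prod_congr rfl fun i _ => by simp only [and_comm]

lemma rs_xor (e z z' : Fin n → Bool) : rs e (fun i => xor (z i) (z' i)) = rs e z * rs e z' := by
  unfold rs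
  rw [← prod_mul_distrib]
  refine prod_congr rfl fun i _ => ?_
  beta_reduce
  cases e i <;> cases z i <;> cases z' i <;> simp

lemma sum_rs {w : Fin n → Bool} (hw : w ≠ fun _ => false) : ∑ a, rs a w = 0 := by
  unfold rs
  rw [← Fintype.piFinset_univ, ← prod_univ_sum (fun _ : Fin n => (univ : Finset Bool))
    fun i b => (if b = true ∧ w i = true then -1 else 1 : ℝ)]
  obtain ⟨i, hi⟩ := Function.ne_iff.1 hw
  refine prod_eq_zero (mem_univ i) ?_
  simp [Bool.eq_true_of_not_eq_false hi]

lemma exists_cosh (η : ℝ) (L : ℕ) : ∃ a : Fin L → Fin n → Bool,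
    ∑ w ∈ univ.erase (fun _ => false : Fin n → Bool), Real.cosh (η * ∑ l, rs (a l) w) ≤
      2 ^ n * Real.cosh η ^ L := by
  induction L with
  | zero =>
    refine ⟨Fin.elim0, ?_⟩
    simp only [univ_eq_empty, sum_empty, mul_zero, Real.cosh_zero, sum_const, nsmul_eq_mul,
      mul_one, pow_zero]
    have := card_le_univ (univ.erase (fun _ => false : Fin n → Bool))
    simp only [Fintype.card_pi, Fintype.card_bool, prod_const, card_univ, Fintype.card_fin] at this
    exact_mod_cast this
  | succ L ih =>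
    obtain ⟨a, ha⟩ := ih
    have key : 𝔼 b : Fin n → Bool, ∑ w ∈ univ.erase (fun _ => false : Fin n → Bool),
        Real.cosh (η * ∑ l, rs ((Fin.cons b a : Fin (L + 1) → Fin n → Bool) l) w) ≤
        2 ^ n * Real.cosh η ^ (L + 1) := by
      rw [expect_sum_comm, pow_succ, ← mul_assoc]
      refine le_trans (le_of_eq ?_) (mul_le_mul_of_nonneg_right ha (Real.cosh_pos η).le)
      rw [sum_mul]
      refine sum_congr rfl fun w hw => ?_
      have e : ∀ b : Fin n → Bool,
          Real.cosh (η * ∑ l, rs ((Fin.cons b a : Fin (L + 1) → Fin n → Bool) l) w) =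
          Real.cosh (η * ∑ l, rs (a l) w) * Real.cosh η +
            Real.sinh (η * ∑ l, rs (a l) w) * Real.sinh η * rs b w := fun b => by
        rw [Fin.sum_univ_succ, Fin.cons_zero, add_comm, mul_add, Real.cosh_add]
        simp only [Fin.cons_succ]
        rcases rs_cases b w with h | h <;> simp [h]
      simp only [e]
      rw [expect_add_distrib, expect_const univ_nonempty, ← mul_expect, expect_eq_sum_div_card,
        sum_rs (ne_of_mem_erase hw)]
      simp
    obtain ⟨b, -, hb⟩ := exists_le_of_expect_le univ_nonempty key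
    exact ⟨_, hb⟩

theorem bias : BiasStmt := by
  intro n L η h0 h1 hL
  obtain ⟨a, ha⟩ := exists_cosh (n := n) η L
  have hL0 : (0 : ℝ) < L := by
    have : (0 : ℝ) < η ^ 2 * L := lt_of_lt_of_le (by positivity) hL
    exact (pos_iff_pos_of_mul_pos this).1 (by positivity)
  refine ⟨a, fun z z' hz => ?_⟩
  simp only [sg_dot, ← rs_xor]
  set w : Fin n → Bool := fun i => xor (z i) (z' i) with hw
  have hw0 : w ≠ fun _ => false := fun h => hz (funext fun i => by
    have := congrFun h i
    simp only [hw] at this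
    revert this
    cases z i <;> cases z' i <;> simp)
  set S := ∑ l, rs (a l) w with hS
  have h2 : Real.cosh (η * S) ≤ 2 ^ n * Real.cosh η ^ L :=
    (single_le_sum (f := fun w => Real.cosh (η * ∑ l, rs (a l) w))
      (fun _ _ => (Real.cosh_pos _).le) (mem_erase.2 ⟨hw0, mem_univ _⟩)).trans ha
  have h3 : Real.exp (η * |S|) ≤ 2 * Real.cosh (η * S) := by
    rw [← Real.cosh_abs, abs_mul, abs_of_pos h0, Real.cosh_eq]
    have := Real.exp_pos (-(η * |S|))
    linarith
  have h4 : (2 : ℝ) ≤ Real.exp 1 := by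
    have := Real.add_one_le_exp (1 : ℝ)
    linarith
  have h5 : Real.exp (η * |S|) ≤ Real.exp ((n + 1) + η ^ 2 / 2 * L) := by
    refine h3.trans ?_
    rw [Real.exp_add]
    have h6 : Real.cosh η ^ L ≤ Real.exp (η ^ 2 / 2 * L) := by
      rw [mul_comm, Real.exp_nat_mul]
      exact pow_le_pow_left₀ (Real.cosh_pos _).le (Real.cosh_le_exp_half_sq η) _
    have h7 : (2 : ℝ) ^ (n + 1) ≤ Real.exp ((n : ℝ) + 1) := by
      have := pow_le_pow_left₀ (by norm_num) h4 (n + 1)
      rwa [← Real.exp_nat_mul, mul_one, Nat.cast_add_one] at this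
    calc 2 * Real.cosh (η * S) ≤ 2 ^ (n + 1) * Real.cosh η ^ L := by rw [pow_succ]; linarith
      _ ≤ _ := mul_le_mul h7 h6 (by positivity) (Real.exp_pos _).le
  have h6 := Real.exp_le_exp.1 h5
  rw [expect_eq_sum_div_card, ← hS, card_univ, Fintype.card_fin, abs_div, abs_of_pos hL0,
    div_le_iff₀ hL0]
  refine le_of_mul_le_mul_left ?_ h0
  nlinarith

end Pool.Agent.MP_36f78e_lc.H75
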