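import Mathlib
import Pool.Agent.MP_36f78e_lc.H75.Walk

/-!
Product expectations, games as circuits, sums of characters.
-/

set_option linter.unusedSectionVars false

namespace Pool.Agent.MP_36f78e_lc.H75

open Pool.Agent.MP_36f78e_lc.H24.Cl Finset
open scoped BigOperators

section

variable {ι : Type} [Fintype ι] [DecidableEq ι]

lemma ext_prod (μ : ι → ℝ) (J : Finset ι) : ext (fun x => ∏ i ∈ J, sg (x i)) μ = ∏ i ∈ J, μ i := by
  unfold ext
  have e : ∀ x : ι → Bool, (∏ i, (1 + μ i * sg (x i)) / 2) * ∏ i ∈ J, sg (x i) =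
      ∏ i, ((1 + μ i * sg (x i)) / 2 * if i ∈ J then sg (x i) else 1) := fun x => by
    rw [prod_mul_distrib, prod_ite_mem, univ_inter]
  simp only [e]
  rw [← Fintype.piFinset_univ, ← prod_univ_sum (fun _ : ι => (univ : Finset Bool))
    fun i b => (1 + μ i * sg b) / 2 * if i ∈ J then sg b else 1]
  rw [← univ_inter J, ← prod_ite_mem, univ_inter]
  refine prod_congr rfl fun i _ => ?_
  by_cases h : i ∈ J <;> simp [h, sg] <;> ring

lemma ext_const (μ : ι → ℝ) (c : ℝ) : ext (fun _ => c) μ = c := by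
  have h := ext_prod μ ∅
  simp only [prod_empty] at h
  unfold ext at h ⊢
  simp only [mul_one] at h
  rw [← sum_mul, h, one_mul]

lemma ext_sg (μ : ι → ℝ) (i : ι) : ext (fun x => sg (x i)) μ = μ i := by
  simpa using ext_prod μ {i}

lemma sg_mul_self (b : Bool) : sg b * sg b = 1 := by cases b <;> simp [sg]

lemma ext_sg_sg (μ : ι → ℝ) (i j : ι) :
    ext (fun x => sg (x i) * sg (x j)) μ = if i = j then 1 else μ i * μ j := by
  split_ifs with h
  · subst h
    simp only [sg_mul_self, ext_const]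
  · have := ext_prod μ {i, j}
    simpa only [prod_pair h] using this

lemma ext_add (μ : ι → ℝ) (F G : (ι → Bool) → ℝ) :
    ext (fun x => F x + G x) μ = ext F μ + ext G μ := by
  simp only [ext, mul_add, sum_add_distrib]

lemma ext_sub (μ : ι → ℝ) (F G : (ι → Bool) → ℝ) :
    ext (fun x => F x - G x) μ = ext F μ - ext G μ := by
  simp only [ext, mul_sub, sum_sub_distrib]

lemma ext_mul (μ : ι → ℝ) (c : ℝ) (F : (ι → Bool) → ℝ) :
    ext (fun x => c * F x) μ = c * ext F μ := by
  simp only [ext, mul_sum]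
  exact sum_congr rfl fun _ _ => by ring

lemma ext_sum {K : Type} (μ : ι → ℝ) (S : Finset K) (F : K → (ι → Bool) → ℝ) :
    ext (fun x => ∑ k ∈ S, F k x) μ = ∑ k ∈ S, ext (F k) μ := by
  simp only [ext, mul_sum]
  exact sum_comm

lemma ext_mono {μ : ι → ℝ} (hμ : ∀ i, |μ i| ≤ 1) {F G : (ι → Bool) → ℝ} (h : ∀ x, F x ≤ G x) :
    ext F μ ≤ ext G μ := by
  refine sum_le_sum fun x _ => mul_le_mul_of_nonneg_left (h x) (prod_nonneg fun i _ => ?_)
  have := abs_le.1 (hμ i)
  cases x i <;> simp only [sg] <;> norm_num <;> linarith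

/-- A game whose final verdicts are shallow decision trees is a circuit. -/
lemma game_ac {p : ℕ} (P Q : (ι → Bool) → (Fin p → Bool) → Prop) (t : ℕ)
    (h : ∀ y, ∃ g : (ι → Bool) → Bool, DT g (fun _ => none) t ∧ ∀ x,
      (P x y → g x = true) ∧ (Q x y → g x = false)) (Bs : List (Finset (Fin p))) :
    ∀ (c : Bool) (y : Fin p → Bool), ∃ C : (ι → Bool) → Bool, AC (2 ^ p) t Bs.length C ∧ ∀ x,
      (Wins (P x) Bs c y → C x = true) ∧ (Wins (Q x) Bs (!c) y → C x = false) := by
  classical
  induction Bs with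
  | nil => exact fun c y => h y
  | cons B Bs ih =>
    intro c y
    choose C hC hC' using ih (!c)
    let F : Finset ((ι → Bool) → Bool) := (univ.filter fun y' => ∀ i ∉ B, y' i = y i).image C
    refine ⟨fun x => if ∃ g ∈ F, g x = c then c else !c, ⟨F, c, ?_, ?_, fun x => ?_⟩,
      fun x => ?_⟩
    · refine card_image_le.trans ((card_le_univ _).trans (le_of_eq ?_))
      simp
    · intro g hg
      obtain ⟨y', -, rfl⟩ := mem_image.1 hg
      exact hC y'
    · by_cases h1 : ∃ g ∈ F, g x = c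
      · simp only [h1, if_true]
      · simp only [h1, if_false, iff_false]
        cases c <;> simp
    · have e : (∃ g ∈ F, g x = c) ↔ ∃ y', (∀ i ∉ B, y' i = y i) ∧ C y' x = c := by
        simp [F]
      simp only [e]
      cases c
      · refine ⟨fun h1 => if_neg ?_, fun h1 => if_pos ?_⟩
        · rintro ⟨y', h2, h3⟩
          rw [(hC' y' x).1 (h1 y' h2)] at h3
          cases h3
        · obtain ⟨y', h2, h3⟩ := h1
          exact ⟨y', h2, (hC' y' x).2 h3⟩
      · refine ⟨fun h1 => if_pos ?_, fun h1 => if_neg ?_⟩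
        · obtain ⟨y', h2, h3⟩ := h1
          exact ⟨y', h2, (hC' y' x).1 h3⟩
        · rintro ⟨y', h2, h3⟩
          rw [(hC' y' x).2 (h1 y' h2)] at h3
          cases h3

end

variable {n : ℕ}

/-- The sum modulo two of two strings. -/
def xr (a b : Fin n → Bool) : Fin n → Bool := fun i => xor (a i) (b i)

lemma rs_xr (a b z : Fin n → Bool) : rs (xr a b) z = rs a z * rs b z := by
  rw [rs_comm, rs_comm a, rs_comm b, ← rs_xor]
  rfl

lemma xr_xr (a b : Fin n → Bool) : xr (xr a b) b = a := by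
  funext i
  simp [xr]

/-- The sums of at most `j` members of a family. -/
def sums {L : ℕ} (a : Fin L → Fin n → Bool) : ℕ → Finset (Fin n → Bool)
  | 0 => {fun _ => false}
  | j + 1 => sums a j ∪ image₂ xr (sums a j) (univ.image a)

lemma card_sums {L : ℕ} (a : Fin L → Fin n → Bool) (j : ℕ) : (sums a j).card ≤ (L + 1) ^ j := by
  induction j with
  | zero => simp [sums]
  | succ j ih =>
    have h1 : (univ.image a).card ≤ L := card_image_le.trans (by simp)
    calc (sums a (j + 1)).card ≤ (sums a j).card + (sums a j).card * (univ.image a).card :=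
          (card_union_le _ _).trans (Nat.add_le_add_left (card_image₂_le _ _ _) _)
      _ ≤ (L + 1) ^ j + (L + 1) ^ j * L := Nat.add_le_add ih (Nat.mul_le_mul ih h1)
      _ = _ := by ring

lemma sums_mono {L : ℕ} (a : Fin L → Fin n → Bool) : Monotone (sums a) :=
  monotone_nat_of_le_succ fun _ => subset_union_left

lemma exists_sum {L : ℕ} (a : Fin L → Fin n → Bool) {K : Type} [DecidableEq K] (j : K → Fin L)
    (T : Finset K) : ∃ u ∈ sums a T.card, ∀ z, ∏ l ∈ T, rs (a (j l)) z = rs u z := by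
  induction T using Finset.induction_on with
  | empty => exact ⟨fun _ => false, by simp [sums], fun z => by simp [rs]⟩
  | insert l T hl ih =>
    obtain ⟨u, hu, h⟩ := ih
    refine ⟨xr u (a (j l)), ?_, fun z => ?_⟩
    · rw [card_insert_of_notMem hl]
      exact mem_union_right _ (mem_image₂_of_mem hu (mem_image_of_mem _ (mem_univ _)))
    · rw [prod_insert hl, h, rs_xr, mul_comm]

lemma sg_xor (a b : Bool) : sg (xor a b) = sg a * sg b := by
  cases a <;> cases b <;> simp [sg]

lemma rs_eq_prod {m : ℕ} (e ξ : Fin m → Bool) :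
    rs e ξ = ∏ l ∈ univ.filter (fun l => e l = true), sg (ξ l) := by
  unfold rs
  rw [prod_filter]
  refine prod_congr rfl fun l _ => ?_
  cases e l <;> cases ξ l <;> simp [sg]

/-- The polynomial in the steps of the walk has small Fourier support. -/
lemma support_poly {L m D : ℕ} (a : Fin L → Fin n → Bool) (G O : Finset (Fin n → Bool))
    (hO : ∀ e ∉ G, ∑ z ∈ O, rs e z = 0) (c : (Fin m → Bool) → ℝ)
    (hc : ∀ e, c e ≠ 0 → (univ.filter fun l => e l = true).card ≤ D)
    (ω : Fin m → Bool × Fin L) (e : Fin n → Bool) (he : e ∉ image₂ xr G (sums a D)) :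
    ∑ z ∈ O, rs e z * ∑ e', c e' * rs e' (fun l => xor (ω l).1 (dot (a (ω l).2) z)) = 0 := by
  simp only [mul_sum]
  rw [sum_comm]
  refine sum_eq_zero fun e' _ => ?_
  by_cases h : c e' = 0
  · simp [h]
  obtain ⟨u, hu, h1⟩ := exists_sum a (fun l => (ω l).2) (univ.filter fun l => e' l = true)
  have h2 : xr e u ∉ G := fun h2 => he (by
    rw [← xr_xr e u]
    exact mem_image₂_of_mem h2 (sums_mono a (hc e' h) hu))
  have h3 : ∀ z, rs e z * (c e' * rs e' fun l => xor (ω l).1 (dot (a (ω l).2) z)) =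
      (c e' * ∏ l ∈ univ.filter (fun l => e' l = true), sg (ω l).1) * rs (xr e u) z := fun z => by
    rw [rs_eq_prod e', rs_xr, ← h1]
    simp only [sg_xor, sg_dot, prod_mul_distrib]
    ring
  simp only [h3]
  rw [← mul_sum, hO _ h2, mul_zero]

/-- The steps seen from one point are uniform. -/
lemma expect_steps {J : Type} [Fintype J] [Nonempty J] {m : ℕ} (X : J → Bool)
    (F : (Fin m → Bool) → ℝ) :
    𝔼 ω : Fin m → Bool × J, F (fun l => xor (ω l).1 (X (ω l).2)) = 𝔼 ξ, F ξ := by
  have hinv : Function.Involutive fun (ω : Fin m → Bool × J) (l : Fin m) =>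
      (xor (ω l).1 (X (ω l).2), (ω l).2) := fun ω => by
    funext l
    simp
  have h1 : 𝔼 ω : Fin m → Bool × J, F (fun l => xor (ω l).1 (X (ω l).2)) =
      𝔼 ω : Fin m → Bool × J, F (fun l => (ω l).1) :=
    Fintype.expect_equiv hinv.toPerm _ _ fun _ => rfl
  have h2 : 𝔼 ω : Fin m → Bool × J, F (fun l => (ω l).1) =
      𝔼 u : (Fin m → Bool) × (Fin m → J), F u.1 :=
    Fintype.expect_equiv (Equiv.arrowProdEquivProdArrow (Fin m) (fun _ => Bool) fun _ => J) _ _
      fun _ => rfl
  rw [h1, h2, ← univ_product_univ, expect_product]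
  simp

lemma coe_rs (e z : Fin n → Bool) : (rs e z : ℂ) = sgn e z := by
  unfold rs sgn
  push_cast
  exact prod_congr rfl fun i _ => by split_ifs <;> simp

end Pool.Agent.MP_36f78e_lc.H75
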