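import Mathlib
import Pool.Agent.MP_36f78e_lc.H75.Asm

/-!
No shallow circuit tells the two sides apart.
-/

set_option linter.unusedSectionVars false

namespace Pool.Agent.MP_36f78e_lc.H75

open Pool.Agent.MP_36f78e_lc.H24.Cl Finset
open scoped BigOperators

/-- One half of an oracle. -/
def half (A : List Bool → Bool) (c : Bool) : List Bool → Bool := fun s => A (c :: s)

/-- The test accepts a subset state. -/
def Yes (A : List Bool → Bool) (n : ℕ) : Prop :=
  ∃ S : Finset (Fin n → Bool), S.Nonempty ∧ 2 / 3 ≤ (check n).accProb A (subsetState S)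

/-- The test rejects every state. -/
def Rej (A : List Bool → Bool) (n : ℕ) : Prop :=
  ∀ w, IsState w → (check n).accProb A w ≤ 1 / 3

/-- The half `b` is positive and the other half is negative. -/
def Side (A : List Bool → Bool) (n : ℕ) (b : Bool) : Prop :=
  Yes (half A b) n ∧ Rej (half A (!b)) n

variable {N : ℕ}

/-- The correlation of signs with a function. -/
noncomputable def lin (O : Finset (Fin N → Bool)) (W : (Fin N → Bool) → ℝ)
    (σ : (Fin N → Bool) → ℝ) : ℝ := (∑ z ∈ O, (2 * (σ z * W z) - W z ^ 2)) / O.card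

/-- The squared Frobenius norm. -/
noncomputable def frob (G G2 O : Finset (Fin N → Bool)) (σ : (Fin N → Bool) → ℝ) : ℝ :=
  ∑ e ∈ G2, ∑ g ∈ G, ((∑ z ∈ O, rs e z * σ z * rs g z) / 2 ^ N) ^ 2

lemma frob_nonneg (G G2 O : Finset (Fin N → Bool)) (σ : (Fin N → Bool) → ℝ) :
    0 ≤ frob G G2 O σ := sum_nonneg fun _ _ => sum_nonneg fun _ _ => sq_nonneg _

lemma rs_mul_self (e z : Fin N → Bool) : rs e z * rs e z = 1 := by
  rcases rs_cases e z with h | h <;> simp [h]

lemma ext_lin (O : Finset (Fin N → Bool)) (W : (Fin N → Bool) → ℝ)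
    (μ : Bool × (Fin N → Bool) → ℝ) (b : Bool) :
    ext (fun x => lin O W fun z => sg (x (b, z))) μ = lin O W fun z => μ (b, z) := by
  unfold lin
  simp only [div_eq_inv_mul]
  rw [ext_mul, ext_sum]
  congr 1
  refine sum_congr rfl fun z _ => ?_
  have e : ∀ x : Bool × (Fin N → Bool) → Bool, 2 * (sg (x (b, z)) * W z) - W z ^ 2 =
      (2 * W z) * sg (x (b, z)) - W z ^ 2 := fun x => by ring
  simp only [e]
  rw [ext_sub, ext_mul, ext_sg, ext_const]
  ring

lemma ext_frob (G G2 O : Finset (Fin N → Bool)) (μ : Bool × (Fin N → Bool) → ℝ) (b : Bool)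
    (hμ : ∀ z, μ (b, z) = 0) :
    ext (fun x => frob G G2 O fun z => sg (x (b, z))) μ ≤ G.card * G2.card / 2 ^ N := by
  unfold frob
  rw [ext_sum]
  have h1 : ∀ e g : Fin N → Bool, ext (fun x : Bool × (Fin N → Bool) → Bool =>
      ((∑ z ∈ O, rs e z * sg (x (b, z)) * rs g z) / 2 ^ N) ^ 2) μ ≤ 1 / 2 ^ N := by
    intro e g
    have e1 : ∀ x : Bool × (Fin N → Bool) → Bool,
        ((∑ z ∈ O, rs e z * sg (x (b, z)) * rs g z) / 2 ^ N) ^ 2 =
        ∑ z ∈ O, ∑ z' ∈ O, (rs e z * rs g z * (rs e z' * rs g z') / (2 ^ N) ^ 2) *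
          (sg (x (b, z)) * sg (x (b, z'))) := fun x => by
      rw [div_pow, sq, sum_mul_sum, sum_div]
      refine sum_congr rfl fun z _ => ?_
      rw [sum_div]
      exact sum_congr rfl fun z' _ => by ring
    simp only [e1]
    rw [ext_sum]
    have e2 : ∀ z ∈ O, ext (fun x : Bool × (Fin N → Bool) → Bool =>
        ∑ z' ∈ O, (rs e z * rs g z * (rs e z' * rs g z') / (2 ^ N) ^ 2) *
          (sg (x (b, z)) * sg (x (b, z')))) μ = 1 / (2 ^ N) ^ 2 := fun z hz => by
      rw [ext_sum, sum_eq_single_of_mem z hz]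
      · rw [ext_mul, ext_sg_sg, if_pos rfl, mul_one, mul_mul_mul_comm, rs_mul_self, rs_mul_self,
          mul_one]
      · intro z' _ hz'
        rw [ext_mul, ext_sg_sg, if_neg (fun h => hz' (Prod.mk.inj h).2.symm), hμ, zero_mul,
          mul_zero]
    rw [sum_congr rfl e2, sum_const, nsmul_eq_mul]
    have h2 : (O.card : ℝ) ≤ 2 ^ N := by
      have := card_le_univ O
      simp only [Fintype.card_pi, Fintype.card_bool, prod_const, card_univ, Fintype.card_fin] at this
      exact_mod_cast this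
    calc (O.card : ℝ) * (1 / (2 ^ N) ^ 2) ≤ 2 ^ N * (1 / (2 ^ N) ^ 2) :=
          mul_le_mul_of_nonneg_right h2 (by positivity)
      _ = _ := by field_simp
  calc _ ≤ ∑ _e ∈ G2, ∑ _g ∈ G, (1 / 2 ^ N : ℝ) := sum_le_sum fun e _ => by
        rw [ext_sum]
        exact sum_le_sum fun g _ => h1 e g
    _ = _ := by
        simp only [sum_const, nsmul_eq_mul]
        ring

/-- A positive value of the test function certifies the side. -/
lemma side_of_pos (hck : CheckStmt) {G G2 O : Finset (Fin N → Bool)} (hne : O.Nonempty)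
    (hO : ∀ e ∉ G, ∑ z ∈ O, rs e z = 0) {W : (Fin N → Bool) → ℝ}
    (hW : ∀ e ∉ G2, ∑ z ∈ O, rs e z * W z = 0) {A : List Bool → Bool}
    {σ : Bool → (Fin N → Bool) → ℝ}
    (h1 : ∀ c, pt (half A c) N false false = G) (h2 : ∀ c, pt (half A c) N false true = O)
    (h3 : ∀ c, pt (half A c) N true true = G2) (h4 : ∀ c, ∀ z ∈ O, sig (half A c) z = σ c z)
    (b : Bool) : 3 * lin O W (σ b) - 2 - 3 * frob G G2 O (σ (!b)) ≤ 1 ∧
      (0 < 3 * lin O W (σ b) - 2 - 3 * frob G G2 O (σ (!b)) → Side A N b) := by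
  have k1 : lin O W (σ b) ≤ (check N).accProb (half A b) (subsetState O) := by
    have := ((hck N).2 (half A b)).2.2
    rw [h1, h2, h3] at this
    refine le_trans (le_of_eq ?_) (this hne hO W hW)
    unfold lin
    congr 1
    exact sum_congr rfl fun z hz => by rw [h4 b z hz]
  have k2 := ((hck N).2 (half A b)).1 _ (isState_subset hne)
  have k3 := frob_nonneg G G2 O (σ (!b))
  refine ⟨by linarith, fun h => ⟨⟨O, hne, by linarith⟩, fun w hw => ?_⟩⟩
  have := ((hck N).2 (half A (!b))).2.1 w hw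
  rw [h1, h2, h3] at this
  refine this.trans (le_trans (le_of_eq ?_) (by linarith : frob G G2 O (σ (!b)) ≤ 1 / 3))
  unfold frob
  refine sum_congr rfl fun e _ => sum_congr rfl fun g _ => ?_
  congr 2
  exact sum_congr rfl fun z hz => by rw [h4 _ z hz]

theorem core (hwk : WalkStmt) (hcl : ClipStmt) (hck : CheckStmt) {G G2 O : Finset (Fin N → Bool)}
    (hne : O.Nonempty) (hO : ∀ e ∉ G, ∑ z ∈ O, rs e z = 0) {L w : ℕ} (hL : 0 < L) (hw : 1 ≤ w)
    (a : Fin L → Fin N → Bool) {η ε : ℝ} (hη : 0 ≤ η)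
    (ha : ∀ z z' : Fin N → Bool, z ≠ z' → |𝔼 l, sg (dot (a l) z) * sg (dot (a l) z')| ≤ η)
    (hG2 : G2 = image₂ xr G (sums a 1000000)) (hc : 100 * (G.card * G2.card) ≤ 2 ^ N)
    {s t k : ℕ} {C : (Bool × (Fin N → Bool) → Bool) → Bool} (ht : 1 ≤ t) (hC : AC s t k C)
    (hε : 100 * (20 * t) ^ k * (1 / w : ℝ) ≤ ε) (htε : t * ε ≤ 1 / 2)
    (herr : (10000 * w ^ 2 : ℕ) * (((s : ℝ) + 1) ^ k / 2 ^ t + ((t * ε) ^ 2 * η + 2 * (t * ε) ^ 3))
      ≤ 1 / 10)
    (A : (Bool × (Fin N → Bool) → Bool) → List Bool → Bool)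
    (h1 : ∀ x c, pt (half (A x) c) N false false = G)
    (h2 : ∀ x c, pt (half (A x) c) N false true = O)
    (h3 : ∀ x c, pt (half (A x) c) N true true = G2)
    (h4 : ∀ x c, ∀ z ∈ O, sig (half (A x) c) z = sg (x (c, z)))
    (hS : ∀ x b, Side (A x) N b → C x = !b) : False := by
  classical
  have : Nonempty (Fin L) := ⟨⟨0, hL⟩⟩
  obtain ⟨h, c, hh, h0, hd, hdeg, hcor⟩ := hcl w hw
  let X : Fin L → Bool × (Fin N → Bool) → Bool := fun l i => dot (a l) i.2
  let H : Bool → Bool × (Fin N → Bool) → (Fin (10000 * w ^ 2) → Bool) → ℝ :=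
    fun b i ξ => if i.1 = b then h ξ else 0
  let μ : Bool → (Fin (10000 * w ^ 2) → Bool × Fin L) → Bool × (Fin N → Bool) → ℝ :=
    fun b ω i => H b i fun l => xor (ω l).1 (X (ω l).2 i)
  have hH : ∀ b i ξ, |H b i ξ| ≤ 99 / 100 := fun b i ξ => by
    simp only [H]
    split_ifs
    · exact hh ξ
    · norm_num
  have k1 : ∀ b, |(𝔼 ω, ext (ind C) (μ b ω)) - ext (ind C) fun _ => 0| ≤ 1 / 10 := fun b => by
    have := hwk _ (Fin L) X (univ.filter fun i => i.1 = b) s t k C (1 / w) ε η ht hC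
      (by positivity) hε htε hη (fun i hi j hj hij => ha i.2 j.2 fun h => hij (Prod.ext
        ((mem_filter.1 hi).2.trans (mem_filter.1 hj).2.symm) h)) _ (H b) (hH b)
      (fun i hi ξ => if_neg fun h => hi (mem_filter.2 ⟨mem_univ _, h⟩))
      (fun i ξ l => by
        simp only [H]
        split_ifs
        · exact hd ξ l
        · simp only [sub_self, abs_zero]
          positivity)
    have e : (fun i => 𝔼 ξ, H b i ξ) = fun _ => 0 := by
      funext i
      simp only [H]
      split_ifs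
      · exact h0
      · simp
    rw [e] at this
    exact this.trans herr
  have k2 : ∀ b (F : (Bool × (Fin N → Bool) → Bool) → ℝ), (∀ x, 0 ≤ F x) →
      (∀ x, C x = (!b) → F x = 1) → 67 / 100 ≤ 𝔼 ω, ext F (μ b ω) := fun b F hF0 hF1 => by
    let W : (Fin (10000 * w ^ 2) → Bool × Fin L) → (Fin N → Bool) → ℝ := fun ω z =>
      ∑ e', c e' * rs e' fun l => xor (ω l).1 (dot (a (ω l).2) z)
    have k3 : ∀ ω, 3 * lin O (W ω) (fun z => μ b ω (b, z)) - 203 / 100 ≤ ext F (μ b ω) := by
      intro ω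
      have k4 : ∀ x, 3 * lin O (W ω) (fun z => sg (x (b, z))) - 2 -
          3 * frob G G2 O (fun z => sg (x (!b, z))) ≤ F x := fun x => by
        have := side_of_pos hck hne hO (W := W ω) (G2 := G2)
          (fun e he => support_poly a G O hO c hdeg ω e (hG2 ▸ he))
          (σ := fun c z => sg (x (c, z))) (h1 x) (h2 x) (h3 x) (h4 x) b
        by_cases hp : 0 < 3 * lin O (W ω) (fun z => sg (x (b, z))) - 2 -
          3 * frob G G2 O (fun z => sg (x (!b, z)))
        · rw [hF1 x (hS x b (this.2 hp))]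
          exact this.1
        · exact (not_lt.1 hp).trans (hF0 x)
      have k5 := ext_mono (μ := μ b ω) (fun i => (hH b i _).trans (by norm_num)) k4
      rw [ext_sub, ext_sub, ext_mul, ext_mul, ext_const, ext_lin] at k5
      have k6 := ext_frob G G2 O (μ b ω) (!b) fun z => if_neg (by cases b <;> simp)
      have k7 : (G.card * G2.card / 2 ^ N : ℝ) ≤ 1 / 100 := by
        rw [div_le_div_iff₀ (by positivity) (by norm_num)]
        have : ((100 * (G.card * G2.card) : ℕ) : ℝ) ≤ (2 ^ N : ℕ) := Nat.cast_le.2 hc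
        push_cast at this
        linarith
      linarith
    have k8 : 9 / 10 ≤ 𝔼 ω, lin O (W ω) (fun z => μ b ω (b, z)) := by
      unfold lin
      rw [← expect_div, expect_sum_comm, le_div_iff₀ (by exact_mod_cast hne.card_pos), mul_comm,
        ← nsmul_eq_mul]
      refine card_nsmul_le_sum _ _ _ fun z _ => hcor.trans (le_of_eq ?_)
      rw [← expect_steps (fun l => dot (a l) z)]
      refine expect_congr rfl fun ω _ => ?_
      simp only [μ, H, if_true, X, W]
    have k9 := expect_le_expect (s := univ) fun ω _ => k3 ω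
    rw [expect_sub_distrib, ← mul_expect, expect_const univ_nonempty] at k9
    linarith
  have k3 := k2 false (ind C) (fun x => by unfold ind; split_ifs <;> norm_num)
    fun x hx => if_pos hx
  have k4 := k2 true (fun x => 1 - ind C x) (fun x => by unfold ind; split_ifs <;> norm_num)
    fun x hx => by simp [ind, hx]
  simp only [ext_sub, ext_const] at k4
  rw [expect_sub_distrib, expect_const univ_nonempty] at k4
  have k5 := abs_le.1 (k1 false)
  have k6 := abs_le.1 (k1 true)
  linarith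

end Pool.Agent.MP_36f78e_lc.H75
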