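import Mathlib
import Pool.Agent.MP_36f78e_lc.H24.Cl.Main
import Pool.Agent.MP_36f78e_lc.H75.Core

/-!
The lower bound for one input length.
-/

set_option linter.unusedSectionVars false

namespace Pool.Agent.MP_36f78e_lc.H75

open Pool.Agent.MP_36f78e_lc.H24.Cl Finset
open scoped BigOperators

variable {N : ℕ}

open Classical in
/-- The oracle that holds, on strings of length `N + 3`, two fixed sets and a restriction. -/
noncomputable def orc (A0 : List Bool → Bool) (G G2 : Finset (Fin N → Bool))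
    (β : Restr (Bool × (Fin N → Bool))) : List Bool → Bool :=
  fun s => if s.length = N + 3 then decide (∃ (c : Bool) (z : Fin N → Bool),
    (s = c :: false :: false :: List.ofFn z ∧ z ∈ G) ∨
    (s = c :: false :: true :: List.ofFn z ∧ β (c, z) ≠ none) ∨
    (s = c :: true :: false :: List.ofFn z ∧ β (c, z) = some true) ∨
    (s = c :: true :: true :: List.ofFn z ∧ z ∈ G2)) else A0 s

/-- The strings attached to a position. -/
def str (i : Bool × (Fin N → Bool)) : Finset (List Bool) :=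
  {i.1 :: false :: true :: List.ofFn i.2, i.1 :: true :: false :: List.ofFn i.2}

lemma str_disj (i j : Bool × (Fin N → Bool)) (h : i ≠ j) : Disjoint (str i) (str j) := by
  rw [disjoint_left]
  intro s hi hj
  refine h (Prod.ext ?_ (List.ofFn_injective ?_)) <;>
  simp only [str, mem_insert, mem_singleton] at hi hj <;>
  rcases hi with rfl | rfl <;> rcases hj with hj | hj <;> simp_all

lemma orc_local (A0 : List Bool → Bool) (G G2 : Finset (Fin N → Bool))
    (β γ : Restr (Bool × (Fin N → Bool))) (s : List Bool) (h : ∀ i, s ∈ str i → β i = γ i) :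
    orc A0 G G2 β s = orc A0 G G2 γ s := by
  unfold orc
  split_ifs
  · refine decide_eq_decide.2 (exists_congr fun c => exists_congr fun z => or_congr_right
      (or_congr (and_congr_right fun hs => ?_) (or_congr_left (and_congr_right fun hs => ?_))))
    · rw [h (c, z) (by simp [str, hs])]
    · rw [h (c, z) (by simp [str, hs])]
  · rfl

section

variable (A0 : List Bool → Bool) (G G2 O : Finset (Fin N → Bool))
  (x : Bool × (Fin N → Bool) → Bool) (c : Bool)

lemma pt_ff : pt (half (orc A0 G G2 (full (univ ×ˢ O) x)) c) N false false = G := by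
  ext z
  simp [pt, half, orc, List.ofFn_injective.eq_iff]

lemma pt_ft : pt (half (orc A0 G G2 (full (univ ×ˢ O) x)) c) N false true = O := by
  ext z
  simp [pt, half, orc, List.ofFn_injective.eq_iff, full, ← and_assoc]

lemma pt_tt : pt (half (orc A0 G G2 (full (univ ×ˢ O) x)) c) N true true = G2 := by
  ext z
  simp [pt, half, orc, List.ofFn_injective.eq_iff]

lemma sig_orc (z : Fin N → Bool) (hz : z ∈ O) :
    sig (half (orc A0 G G2 (full (univ ×ˢ O) x)) c) z = sg (x (c, z)) := by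
  unfold sig
  congr 1
  rw [Bool.eq_iff_iff]
  simp [half, orc, List.ofFn_injective.eq_iff, full, ← and_assoc, hz]

end

/-- The game is wrong on inputs of length `n`. -/
def Bad (Γ : Game) (n : ℕ) (A : List Bool → Bool) : Prop :=
  (Side A n false ∧ ¬ Γ.Accepts A) ∨ (Side A n true ∧ ¬ Γ.Rejects A)

lemma card_le_two_mul (Y : Finset (Bool × (Fin N → Bool))) :
    Y.card ≤ 2 * (Y.image Prod.snd).card := by
  calc Y.card ≤ (univ ×ˢ Y.image Prod.snd : Finset (Bool × (Fin N → Bool))).card :=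
        card_le_card fun i hi => mem_product.2 ⟨mem_univ _, mem_image_of_mem _ hi⟩
    _ = _ := by simp

theorem finite_bound (hwk : WalkStmt) (hcl : ClipStmt) (hck : CheckStmt) (hsp : SparseStmt)
    (Γ : Game) (hV : Γ.V.Valid) (A0 : List Bool → Bool) (r k m B d t L w : ℕ) (ρ η ε : ℝ)
    (hr : r ≠ 0) (hk : 2 ≤ k) (hB : B ≠ 0) (hn : B * 3 ^ d ≤ 2 ^ r) (ht : 1 ≤ t)
    (htm : t ≤ 2 ^ m) (hρ0 : 0 ≤ ρ) (hρ1 : ρ ≤ 1)
    (hρ : (2 / 3) ^ B * Real.exp (5 / 7 * (10 / 21) ^ d * ((k - 1) * m : ℕ)) ≤ ρ ^ 2)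
    (hs : 2 ^ Γ.V.p * (5000 * ((Γ.V.queries : ℝ) + 1) ^ 2 * ρ) ^ t < (2 / 3) ^ B)
    (hη0 : 0 < η) (hη1 : η ≤ 1) (hL : 4 * (((r * k : ℕ) : ℝ) + 1) ≤ η ^ 2 * L) (hw : 1 ≤ w)
    (hc : 100 * (2 ^ (r * (m + 1) * (B * 2 ^ d)) * (2 ^ (r * (m + 1) * (B * 2 ^ d)) *
      (L + 1) ^ 1000000)) ≤ 2 ^ (r * k))
    (hε : 100 * (20 * t) ^ Γ.blocks.length * (1 / w : ℝ) ≤ ε) (htε : t * ε ≤ 1 / 2)
    (herr : (10000 * w ^ 2 : ℕ) * ((((2 ^ Γ.V.p : ℕ) : ℝ) + 1) ^ Γ.blocks.length / 2 ^ t +
      ((t * ε) ^ 2 * η + 2 * (t * ε) ^ 3)) ≤ 1 / 10) :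
    ∃ A : List Bool → Bool, (∀ s, s.length ≠ r * k + 3 → A s = A0 s) ∧ Bad Γ (r * k) A := by
  classical
  obtain ⟨G, Ω, _, _, O, hG, hO, hup, hlo⟩ := exists_family r k m B d hr hk hB hn
  obtain ⟨a, ha⟩ := bias (r * k) L η hη0 hη1 hL
  have hL0 : 0 < L := by
    rcases Nat.eq_zero_or_pos L with h | h
    · rw [h, Nat.cast_zero, mul_zero] at hL
      exact absurd hL (not_le.2 (by positivity))
    · exact h
  set G2 := image₂ xr G (sums a 1000000) with hG2
  have h1 := hsp _ Γ.V hV (orc A0 G G2) str str_disj (orc_local A0 G G2) Ω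
    (fun ω => univ ×ˢ O ω) ρ t hρ0 fun Y hY => by
      have e : ∀ ω, Y ⊆ univ ×ˢ O ω ↔ Y.image Prod.snd ⊆ O ω := fun ω => by
        rw [image_subset_iff]
        exact ⟨fun h i hi => (mem_product.1 (h hi)).2,
          fun h i hi => mem_product.2 ⟨mem_univ _, h i hi⟩⟩
      simp only [e]
      calc _ ≤ _ := hup _ (card_image_le.trans (hY.trans htm))
        _ ≤ (ρ ^ 2) ^ (Y.image Prod.snd).card := pow_le_pow_left₀ (by positivity) hρ _
        _ ≤ _ := by
          rw [← pow_mul]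
          exact pow_le_pow_of_le_one hρ0 hρ1 (card_le_two_mul Y)
  obtain ⟨ω, -, hω⟩ := exists_lt_of_expect_lt_expect (h1.trans_lt (hs.trans_le (hlo default)))
  have h2 : Good Γ.V (orc A0 G G2) t (univ ×ˢ O ω) ∧ default ∈ O ω := by
    by_contra h
    rw [not_and_or] at h
    rcases h with h | h
    · rw [if_neg h] at hω
      split_ifs at hω <;> norm_num at hω
    · rw [if_neg h] at hω
      split_ifs at hω <;> norm_num at hω
  obtain ⟨C, hC, hC'⟩ := game_ac
    (fun x y => 2 / 3 ≤ Γ.V.accProb (orc A0 G G2 (full (univ ×ˢ O ω) x)) (Pi.single y 1))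
    (fun x y => Γ.V.accProb (orc A0 G G2 (full (univ ×ˢ O ω) x)) (Pi.single y 1) ≤ 1 / 3)
    t h2.1 Γ.blocks true fun _ => false
  by_contra hcon
  have hb : ∀ β, ¬ Bad Γ (r * k) (orc A0 G G2 β) := fun β h =>
    hcon ⟨_, fun s hs => if_neg hs, h⟩
  refine core hwk hcl hck ⟨_, h2.2⟩ (fun e he => ?_) hL0 hw a hη0.le ha hG2 ?_ ht hC hε htε herr
    (fun x => orc A0 G G2 (full (univ ×ˢ O ω) x)) (pt_ff A0 G G2 _) (pt_ft A0 G G2 _)
    (pt_tt A0 G G2 _) (sig_orc A0 G G2 _) fun x b hS => ?_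
  · have := hO ω e he
    simp only [← coe_rs] at this
    exact_mod_cast this
  · exact le_trans (Nat.mul_le_mul_left _ (Nat.mul_le_mul hG ((card_image₂_le _ _ _).trans
      (Nat.mul_le_mul hG (card_sums a _))))) hc
  · cases b
    · exact (hC' x).1 (by_contra fun h => hb _ (Or.inl ⟨hS, h⟩))
    · exact (hC' x).2 (by_contra fun h => hb _ (Or.inr ⟨hS, h⟩))

end Pool.Agent.MP_36f78e_lc.H75
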