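import Mathlib
import Pool.Agent.MP_36f78e_lc.H75.Bound
import Pool.Agent.MP_36f78e_lc.H17.Step
import Pool.Agent.MP_36f78e_lc.H23.Switch
import Pool.Agent.MP_36f78e_lc.H40.Clip
import Pool.Agent.MP_36f78e_lc.H52.Sparse
import Pool.Agent.MP_36f78e_lc.H70.Check

/-!
The choice of parameters and the diagonalisation.
-/

set_option linter.unusedSectionVars false

namespace Pool.Agent.MP_36f78e_lc.H75

open Pool.Agent.MP_36f78e_lc.H24.Cl Finset
open scoped BigOperators

lemma mul_le_two_pow {m : ℕ} (h : 12 ≤ m) : 200 * m ≤ 2 ^ m := by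
  induction m, h using Nat.le_induction with
  | base => norm_num
  | succ m hm ih => rw [pow_succ]; omega

lemma err_le {Z S T : ℝ} (hZ : 400000 ≤ Z) (hT : 0 < T) (h : S * Z ^ 27 ≤ T) :
    10000 * (Z ^ 13) ^ 2 * (S / T + ((1 / Z ^ 9) ^ 2 * (1 / Z ^ 9) + 2 * (1 / Z ^ 9) ^ 3)) ≤
      1 / 10 := by
  have h0 : 0 < Z := by linarith
  have h1 : S / T ≤ 1 / Z ^ 27 := by
    rw [div_le_div_iff₀ hT (by positivity)]
    linarith
  calc _ ≤ 10000 * (Z ^ 13) ^ 2 *
        (1 / Z ^ 27 + ((1 / Z ^ 9) ^ 2 * (1 / Z ^ 9) + 2 * (1 / Z ^ 9) ^ 3)) := by gcongr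
    _ = 40000 / Z := by field_simp; norm_num
    _ ≤ _ := by
        rw [div_le_div_iff₀ h0 (by norm_num)]
        linarith

theorem finite_bound' (u : ℕ) (hu : 125 ≤ u) : ∃ N, u ≤ N ∧ ∀ Γ : Game, Γ.V.Valid →
    Γ.size ^ 33 ≤ N → ∀ A0 : List Bool → Bool,
    ∃ A : List Bool → Bool, (∀ s, s.length ≠ N + 3 → A s = A0 s) ∧ Bad Γ N A := by
  obtain ⟨a, ha⟩ : ∃ a, a = 2 ^ u := ⟨_, rfl⟩
  obtain ⟨d, hd⟩ : ∃ d, d = 29 * (u + 4) := ⟨_, rfl⟩
  obtain ⟨r, hr⟩ : ∃ r, r = 47 * (u + 4) := ⟨_, rfl⟩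
  obtain ⟨E, hE⟩ : ∃ E, E = 2 ^ d := ⟨_, rfl⟩
  obtain ⟨D, hD⟩ : ∃ D, D = 2 ^ a := ⟨_, rfl⟩
  obtain ⟨Z, hZ⟩ : ∃ Z, Z = 2 ^ (a * a) := ⟨_, rfl⟩
  obtain ⟨K, hK⟩ : ∃ K, K = (2 * a + 1) * (16 * a * E) := ⟨_, rfl⟩
  have hua : 200 * u ≤ a := ha ▸ mul_le_two_pow (by omega)
  have haD : 200 * a ≤ D := hD ▸ mul_le_two_pow (by omega)
  have haa : 200 * a ≤ a * a := Nat.mul_le_mul_right a (by omega)
  have hE0 : 2 ^ 20 ≤ E := hE ▸ Nat.pow_le_pow_right (by norm_num) (by omega)
  have hZ0 : 2 ^ 20 ≤ Z := hZ ▸ Nat.pow_le_pow_right (by norm_num) (by omega)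
  have hK1 : K ≤ 48 * (a * (a * E)) := by
    calc K ≤ (3 * a) * (16 * a * E) := hK ▸ Nat.mul_le_mul_right _ (by omega)
      _ = _ := by ring
  have hK2 : 2 ^ 25 * (a * a) ≤ K := by
    calc _ = (2 * a) * (16 * a * 2 ^ 20) := by ring
      _ ≤ _ := hK ▸ Nat.mul_le_mul (by omega) (Nat.mul_le_mul_left _ hE0)
  refine ⟨r * (3 * K + 1), ?_, fun Γ hV hc A0 => ?_⟩
  · exact le_trans (by omega) (Nat.le_mul_of_pos_right r (Nat.succ_pos _))
  have hN : r * (3 * K + 1) < 2 ^ (33 * u) := by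
    calc _ ≤ a * (2 ^ 8 * (a * (a * E))) := Nat.mul_le_mul (by omega) (by omega)
      _ = 2 ^ (32 * u + 124) := by rw [hE, hd, ha]; ring
      _ < _ := Nat.pow_lt_pow_right (by norm_num) (by omega)
  have hs : Γ.size < a := lt_of_pow_lt_pow_left₀ 33 (Nat.zero_le _)
    (hc.trans_lt (by rwa [ha, ← pow_mul, mul_comm u]))
  have hk : Γ.blocks.length < a := lt_of_le_of_lt (Nat.le_add_left _ _) hs
  have hp : Γ.V.p + Γ.V.queries < D :=
    hD ▸ Nat.lt_pow_of_log_lt (by norm_num) (lt_of_le_of_lt (Nat.le_add_right _ _) hs)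
  have hDD : 200 * D ≤ D * D := Nat.mul_le_mul_right D (by omega)
  have hD0 : (1 : ℝ) ≤ D := by exact_mod_cast (by omega : 1 ≤ D)
  have hZ1 : (400000 : ℝ) ≤ Z := by exact_mod_cast (by omega : 400000 ≤ Z)
  have hZ2 : (0 : ℝ) < Z := by linarith
  have htε : ((D * D : ℕ) : ℝ) * (1 / (Z ^ 9 * (D * D : ℕ))) = 1 / Z ^ 9 := by
    push_cast
    field_simp
  have hZ9 : (1 / Z ^ 9 : ℝ) ≤ 1 / 2 := one_div_le_one_div_of_le (by norm_num)
    (le_trans (by linarith) (le_self_pow₀ (by linarith) (by norm_num)))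
  refine finite_bound (walk (H17.step H23.switch)) H40.clip H70.checkOK H52.sparse Γ hV A0 r _
    (2 * a) (16 * a) d (D * D) (4 * (r * (3 * K + 1) + 1) * Z ^ 18) (Z ^ 13)
    (1 / (10000 * D ^ 2)) (1 / Z ^ 9) (1 / (Z ^ 9 * (D * D : ℕ))) (by omega) (by omega) (by omega)
    ?_ (by omega) ?_ (by positivity) ?_ ?_ ?_ (by positivity) (by linarith) (le_of_eq ?_)
    (Nat.one_le_pow _ _ (by omega)) ?_ ?_ (htε ▸ hZ9) ?_
  · calc 16 * a * 3 ^ d ≤ 2 ^ (u + 4) * (2 ^ 46) ^ (u + 4) := by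
          rw [hd, pow_mul, ha]
          exact Nat.mul_le_mul (le_of_eq (by ring)) (Nat.pow_le_pow_left (by norm_num) _)
      _ = 2 ^ (u + 4 + 46 * (u + 4)) := by rw [← pow_mul, ← pow_add]
      _ ≤ _ := Nat.pow_le_pow_right (by norm_num) (by omega)
  · rw [hD, ← pow_add, two_mul]
  · rw [div_le_one (by positivity)]
    nlinarith
  · rw [Nat.add_sub_cancel]
    have h1 : ((3 * K * (2 * a) : ℕ) : ℝ) ≤ 288 * (a * (a * (a * 2 ^ d))) := by
      have : 3 * K * (2 * a) ≤ 288 * (a * (a * (a * E))) := by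
        calc _ ≤ 3 * (48 * (a * (a * E))) * (2 * a) :=
              Nat.mul_le_mul_right _ (Nat.mul_le_mul_left _ hK1)
          _ = _ := by ring
      rw [hE] at this
      exact_mod_cast this
    have h2 : (10 / 21 : ℝ) ^ d * 2 ^ d * (256 * (a * a)) ≤ 1 := by
      have e : (256 * (a * a) : ℝ) = 4 ^ (u + 4) := by
        rw [ha, show (4 : ℝ) = 2 * 2 by norm_num, mul_pow]; push_cast; ring
      rw [e, ← mul_pow, hd, pow_mul, ← mul_pow]
      exact pow_le_one₀ (by positivity) (by norm_num)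
    have h3 : (0 : ℝ) ≤ a := Nat.cast_nonneg _
    have h4 : 5 / 7 * (10 / 21 : ℝ) ^ d * (3 * K * (2 * a) : ℕ) ≤ (16 * a : ℕ) * (1 / 10) := by
      calc _ ≤ 5 / 7 * (10 / 21 : ℝ) ^ d * (288 * (a * (a * (a * 2 ^ d)))) :=
            mul_le_mul_of_nonneg_left h1 (by positivity)
        _ = 45 / 56 * a * ((10 / 21 : ℝ) ^ d * 2 ^ d * (256 * (a * a))) := by ring
        _ ≤ 45 / 56 * a * 1 := mul_le_mul_of_nonneg_left h2 (by positivity)
        _ ≤ _ := by push_cast; linarith
    have e1 : Real.exp (1 / 10) ≤ 9 / 8 := by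
      have := Real.exp_bound_div_one_sub_of_interval (x := 1 / 10) (by norm_num) (by norm_num)
      linarith
    have e2 : (10000 : ℝ) ≤ 2 ^ a := by
      have : 10000 ≤ D := by omega
      rw [hD] at this
      exact_mod_cast this
    calc _ ≤ (2 / 3 : ℝ) ^ (16 * a) * Real.exp (1 / 10) ^ (16 * a) := by
          rw [← Real.exp_nat_mul]
          exact mul_le_mul_of_nonneg_left (Real.exp_le_exp.2 h4) (by positivity)
      _ ≤ (3 / 4) ^ (16 * a) := by
          rw [← mul_pow]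
          exact pow_le_pow_left₀ (by positivity) (by linarith) _
      _ ≤ ((1 / 8) ^ 2) ^ a := by
          rw [pow_mul]
          exact pow_le_pow_left₀ (by positivity) (by norm_num) _
      _ ≤ _ := by
          rw [pow_right_comm]
          refine pow_le_pow_left₀ (by positivity) ?_ _
          rw [one_div_pow, hD, show (8 : ℝ) = 2 * (2 * 2) by norm_num, mul_pow, mul_pow]
          refine one_div_le_one_div_of_le (by positivity) ?_
          push_cast
          rw [sq]
          exact mul_le_mul_of_nonneg_right e2 (by positivity)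
  · have h1 : (Γ.V.queries : ℝ) + 1 ≤ D := by exact_mod_cast (by omega : Γ.V.queries + 1 ≤ D)
    have h2 : 5000 * ((Γ.V.queries : ℝ) + 1) ^ 2 * (1 / (10000 * D ^ 2)) ≤ 1 / 2 := by
      rw [mul_one_div, div_le_div_iff₀ (by positivity) (by norm_num)]
      have := pow_le_pow_left₀ (by positivity) h1 2
      linarith
    calc _ ≤ 2 ^ Γ.V.p * (1 / 2 : ℝ) ^ (D * D) := by gcongr
      _ ≤ 2 ^ Γ.V.p * (1 / 2 : ℝ) ^ (Γ.V.p + 16 * a) := mul_le_mul_of_nonneg_left
          (pow_le_pow_of_le_one (by norm_num) (by norm_num) (by omega)) (by positivity)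
      _ = (1 / 2) ^ (16 * a) := by rw [pow_add, ← mul_assoc, ← mul_pow]; norm_num
      _ < _ := pow_lt_pow_left₀ (by norm_num) (by norm_num) (by omega)
  · push_cast
    field_simp
  · rw [← hE, mul_assoc r, ← hK]
    have h1 : 4 * (r * (3 * K + 1) + 1) * Z ^ 18 + 1 ≤ 2 ^ (19 * (a * a)) := by
      have h2 : 1 ≤ (r * (3 * K + 1) + 1) * Z ^ 18 :=
        Nat.mul_pos (Nat.succ_pos _) (Nat.pow_pos (by omega))
      calc _ ≤ 2 ^ 3 * ((r * (3 * K + 1) + 1) * Z ^ 18) := by rw [mul_assoc 4]; omega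
        _ ≤ 2 ^ 3 * (2 ^ (33 * u) * Z ^ 18) :=
            Nat.mul_le_mul_left _ (Nat.mul_le_mul_right _ hN)
        _ = 2 ^ (3 + (33 * u + a * a * 18)) := by rw [hZ, ← pow_mul, ← pow_add, ← pow_add]
        _ ≤ _ := Nat.pow_le_pow_right (by norm_num) (by omega)
    have h3 : 1 * (K + 1) ≤ r * (K + 1) := Nat.mul_le_mul_right _ (by omega)
    calc _ ≤ 2 ^ 7 * (2 ^ (r * K) * (2 ^ (r * K) * (2 ^ (19 * (a * a))) ^ 1000000)) :=
          Nat.mul_le_mul (by norm_num) (Nat.mul_le_mul_left _ (Nat.mul_le_mul_left _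
            (Nat.pow_le_pow_left h1 _)))
      _ = 2 ^ (7 + (r * K + (r * K + 19 * (a * a) * 1000000))) := by
          rw [← pow_mul, ← pow_add, ← pow_add, ← pow_add]
      _ ≤ _ := Nat.pow_le_pow_right (by norm_num) (by
          rw [show r * (3 * K + 1) = r * K + (r * K + r * (K + 1)) by ring]
          omega)
  · have h1 : 100 * (20 * (D * D)) ^ Γ.blocks.length * (D * D) ≤ Z ^ 4 := by
      have h2 : 20 * (D * D) ≤ 2 ^ (3 * a) := by
        calc _ ≤ D * (D * D) := Nat.mul_le_mul_right _ (by omega)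
          _ = _ := by rw [hD]; ring
      calc _ ≤ 2 ^ (3 * a) * (2 ^ (3 * a)) ^ a * 2 ^ (3 * a) :=
            Nat.mul_le_mul (Nat.mul_le_mul (by omega) ((Nat.pow_le_pow_left h2 _).trans
              (Nat.pow_le_pow_right (by positivity) hk.le))) (by omega)
        _ = 2 ^ (3 * a + 3 * (a * a) + 3 * a) := by ring
        _ ≤ 2 ^ (a * a * 4) := Nat.pow_le_pow_right (by norm_num) (by omega)
        _ = _ := by rw [hZ, pow_mul]
    have h2 : (100 * (20 * (D * D : ℕ)) ^ Γ.blocks.length * (D * D : ℕ) : ℝ) ≤ Z ^ 4 := by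
      exact_mod_cast h1
    have h3 : (0 : ℝ) < (Z ^ 13 : ℕ) := by push_cast; positivity
    have h4 : (0 : ℝ) < (D * D : ℕ) := by push_cast; positivity
    rw [mul_one_div, div_le_div_iff₀ h3 (by positivity)]
    calc _ = (100 * (20 * (D * D : ℕ)) ^ Γ.blocks.length * (D * D : ℕ) : ℝ) * Z ^ 9 := by ring
      _ ≤ Z ^ 4 * Z ^ 9 := mul_le_mul_of_nonneg_right h2 (by positivity)
      _ = _ := by push_cast; ring
  · rw [htε]
    have h1 : (2 ^ Γ.V.p + 1) ^ Γ.blocks.length * Z ^ 27 ≤ 2 ^ (D * D) := by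
      have h2 : 2 ^ Γ.V.p + 1 ≤ 2 ^ D :=
        Nat.pow_lt_pow_right (by norm_num) (by omega)
      have h3 : a * a ≤ D * a := Nat.mul_le_mul_right _ (by omega)
      have h4 : D * (200 * a) ≤ D * D := Nat.mul_le_mul_left _ haD
      have h5 : D * (200 * a) = 200 * (D * a) := by ring
      calc _ ≤ (2 ^ D) ^ a * Z ^ 27 := Nat.mul_le_mul_right _ ((Nat.pow_le_pow_left h2 _).trans
            (Nat.pow_le_pow_right (by positivity) hk.le))
        _ = 2 ^ (D * a + a * a * 27) := by rw [hZ, ← pow_mul, ← pow_mul, ← pow_add]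
        _ ≤ _ := Nat.pow_le_pow_right (by norm_num) (by omega)
    have := err_le (S := (((2 ^ Γ.V.p : ℕ) : ℝ) + 1) ^ Γ.blocks.length) (T := 2 ^ (D * D)) hZ1
      (by positivity) (by exact_mod_cast h1)
    refine le_trans (le_of_eq ?_) this
    push_cast
    rfl

lemma run_congr_len {α : Type} [Fintype α] [DecidableEq α] {A A' : List Bool → Bool} {m : ℕ}
    (h : ∀ s, s.length = m → A s = A' s) (gs : List (Gate α))
    (hg : ∀ l t, Sum.inr (l, t) ∈ gs → l.length = m) : ∀ v, run A gs v = run A' gs v := by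
  induction gs with
  | nil => exact fun _ => rfl
  | cons g gs ih =>
    intro v
    rw [run_cons, run_cons, ih fun l t hl => hg l t (List.mem_cons_of_mem _ hl)]
    congr 1
    rcases g with U | ⟨l, t⟩
    · rfl
    · funext y
      simp only [act]
      rw [h _ (by rw [List.length_map, hg l t List.mem_cons_self])]

lemma check_congr {A A' : List Bool → Bool} {n : ℕ} (h : ∀ s, s.length = n + 3 → A s = A' s)
    (c : Bool) (w : (Fin n → Bool) → ℂ) :
    (check n).accProb (half A c) w = (check n).accProb (half A' c) w := by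
  rw [accProb_eq, accProb_eq, run_congr_len (A := half A c) (A' := half A' c) (m := n + 2)
    (fun s hs => h _ (by simp [hs]))]
  intro l t hl
  have hl' : (Sum.inr (l, t) : Gate (Fin n ⊕ Fin 4)) ∈ [Sum.inl (had n), call n 2 2 0,
    Sum.inl (had n), call n 2 0 1, call n 0 2 3, Sum.inl (zed n), call n 0 2 3, Sum.inl (had n),
    call n 0 0 2] := hl
  simp only [call, List.mem_cons, Sum.inr.injEq, Prod.mk.injEq, reduceCtorEq, false_or,
    List.not_mem_nil, or_false] at hl'
  have key : ∀ u v : Fin 4, (Sum.inr u :: Sum.inr v :: List.ofFn Sum.inl :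
      List (Fin n ⊕ Fin 4)).length = n + 2 := fun u v => by simp
  rcases hl' with h | h | h | h | h <;> exact (congrArg List.length h.1).trans (key _ _)

lemma side_congr {A A' : List Bool → Bool} {n : ℕ} (h : ∀ s, s.length = n + 3 → A s = A' s)
    {b : Bool} (h' : Side A' n b) : Side A n b := by
  unfold Side Yes Rej at h' ⊢
  simpa only [check_congr h] using h'

lemma not_side {A : List Bool → Bool} {n : ℕ} (h : Side A n true) : ¬ Side A n false :=
  fun h' => by
  obtain ⟨S, hS, h1⟩ := h'.1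
  have h2 := h.2 _ (isState_subset hS)
  simp only [Bool.not_true] at h2
  linarith

/-- Every length carries an instance. -/
def Total (A : List Bool → Bool) : Prop := ∀ n, Side A n false ∨ Side A n true

lemma total_base : Total fun s => s.headD false := fun n => by
  refine Or.inr ⟨⟨univ, univ_nonempty, ?_⟩, fun w hw => ?_⟩
  · have e : ∀ b c, pt (half (fun s => s.headD false) true) n b c = univ := fun b c => by
      simp [pt, half]
    have := ((H70.checkOK n).2 (half (fun s => s.headD false) true)).2.2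
    simp only [e] at this
    refine le_trans ?_ (this univ_nonempty (by simp) (fun _ => -1) (by simp))
    have e2 : ∀ z : Fin n → Bool, 2 * (sig (half (fun s => s.headD false) true) z * -1) -
        (-1) ^ 2 = 1 := fun z => by
      simp only [sig, half, sg, List.headD_cons, if_true]
      norm_num
    simp only [e2, sum_const, nsmul_eq_mul, mul_one]
    rw [div_self (by exact_mod_cast univ_nonempty.card_pos.ne')]
    norm_num
  · refine (((H70.checkOK n).2 _).2.1 w hw).trans ?_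
    simp [pt, half]

lemma stage (V : List Bool → Game) (hu : ∀ x, (V x).V.Valid)
    (hc : ∃ N0, ∀ x : List Bool, N0 ≤ x.length → (V x).size ^ 33 ≤ x.length)
    (A : List Bool → Bool) (b : ℕ) (hA : Total A) :
    ∃ (A' : List Bool → Bool) (b' : ℕ), Total A' ∧ b < b' ∧ (∀ s, s.length < b → A' s = A s) ∧
      ∃ x : List Bool, ∀ A'' : List Bool → Bool, (∀ s, s.length < b' → A'' s = A' s) →
        Bad (V x) x.length A'' := by
  obtain ⟨N0, hN0⟩ := hc
  obtain ⟨N, hN, h⟩ := finite_bound' (125 + N0 + b) (by omega)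
  have hx : (List.replicate N false).length = N := List.length_replicate
  obtain ⟨A', h1, h2⟩ := h (V (List.replicate N false)) (hu _)
    (by have := hN0 (List.replicate N false) (by omega); rwa [hx] at this) A
  obtain ⟨c, hcc⟩ := run_congr (V (List.replicate N false)).V.gates
  refine ⟨A', max c (N + 4), fun n => ?_, lt_max_of_lt_right (by omega),
    fun s hs => h1 s (by omega), List.replicate N false, fun A'' h3 => ?_⟩
  · by_cases hn : n = N
    · exact hn ▸ h2.imp And.left And.left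
    · exact (hA n).imp (side_congr fun s hs => h1 s (by omega))
        (side_congr fun s hs => h1 s (by omega))
  · have h4 : ∀ s, s.length = N + 3 → A'' s = A' s :=
      fun s hs => h3 s (lt_max_of_lt_right (by omega))
    have h5 := hcc A'' A' fun s hs => h3 s (lt_max_of_lt_left hs)
    rw [hx]
    refine h2.imp (And.imp (side_congr h4) fun h6 => ?_) (And.imp (side_congr h4) fun h6 => ?_)
    · simpa only [Game.Accepts, accProb_eq, h5] using h6
    · simpa only [Game.Rejects, accProb_eq, h5] using h6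

theorem diag (V : ℕ → List Bool → Game) (hu : ∀ k x, (V k x).V.Valid)
    (hc : ∀ k, ∃ N0, ∀ x : List Bool, N0 ≤ x.length → (V k x).size ^ 33 ≤ x.length) :
    ∃ A : List Bool → Bool, Total A ∧ ∀ k, ∃ x : List Bool, Bad (V k x) x.length A := by
  have step : ∀ k, ∀ z : {z : (List Bool → Bool) × ℕ // Total z.1},
      ∃ z' : {z : (List Bool → Bool) × ℕ // Total z.1}, z.1.2 < z'.1.2 ∧
      (∀ s, s.length < z.1.2 → z'.1.1 s = z.1.1 s) ∧ ∃ x : List Bool, ∀ A'' : List Bool → Bool,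
        (∀ s, s.length < z'.1.2 → A'' s = z'.1.1 s) → Bad (V k x) x.length A'' := by
    intro k z
    obtain ⟨A', b', h1, h3, h4, h5⟩ := stage (V k) (hu k) (hc k) z.1.1 z.1.2 z.2
    exact ⟨⟨(A', b'), h1⟩, h3, h4, h5⟩
  choose nx n1 n2 n3 using step
  let σ : ℕ → {z : (List Bool → Bool) × ℕ // Total z.1} := fun k =>
    Nat.rec ⟨(fun s => s.headD false, 0), total_base⟩ (fun k z => nx k z) k
  have hs : ∀ k, σ (k + 1) = nx k (σ k) := fun _ => rfl
  have mono : StrictMono fun k => (σ k).1.2 := strictMono_nat_of_lt_succ fun k => n1 k (σ k)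
  have stab : ∀ j k s, j ≤ k → s.length < (σ j).1.2 → (σ k).1.1 s = (σ j).1.1 s := by
    intro j k s hjk hm
    induction k, hjk using Nat.le_induction with
    | base => rfl
    | succ k hjk ih => rw [hs, n2 k (σ k) s (hm.trans_le (mono.monotone hjk)), ih]
  refine ⟨fun s => (σ (s.length + 1)).1.1 s, fun n => ((σ (n + 3 + 1)).2 n).imp
    (side_congr fun s h => by rw [h]) (side_congr fun s h => by rw [h]), fun k => ?_⟩
  obtain ⟨x, hx⟩ := n3 k (σ k)
  refine ⟨x, hx _ fun s hm => ?_⟩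
  rw [← hs] at hm ⊢
  have h1 : s.length < (σ (s.length + 1)).1.2 :=
    lt_of_lt_of_le (Nat.lt_succ_self _) (mono.le_apply (x := s.length + 1))
  rcases le_total (s.length + 1) (k + 1) with h | h
  · exact (stab _ _ s h h1).symm
  · exact stab _ _ s h hm

end Pool.Agent.MP_36f78e_lc.H75
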